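import Pool.Agent.helper90.ZD.SpecB

set_option autoImplicit false

open Complex MeasureTheory

namespace Pool.Agent.ZD

open Pool.Agent.helper84.DM Pool.Agent.helper78.ED Pool.Agent.DH

/-- Monotonicity in `b` above `13/17`. -/
theorem BE1_low {b c : ℝ} (hb : 13 / 17 ≤ b) (hc : 0 ≤ c) : 13 / 17 * c ≤ b * c :=
  mul_le_mul_of_nonneg_right hb hc

theorem BE1 : BE1_stmt := by
  intro s b w hs1 hs2 hw hb1 hb2 hb3
  have h2s : 0 < 2 * s - 1 := by linarith
  -- b ≤ 29/34
  have hb4 : b ≤ 29 / 34 := by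
    by_contra h
    push Not at h
    have h1 : 29 / 34 * (2 * s - 1) < b * (2 * s - 1) := mul_lt_mul_of_pos_right h h2s
    rw [hw] at hb3
    linarith
  -- lower end facts
  have e12 : 13 / 17 * (12 * s - 8) ≤ b * (12 * s - 8) := BE1_low hb1 (by linarith)
  have e6 : 13 / 17 * (6 * s - 4) ≤ b * (6 * s - 4) := BE1_low hb1 (by linarith)
  have e8 : 13 / 17 * (8 * s - 5) ≤ b * (8 * s - 5) := BE1_low hb1 (by linarith)
  have e22 : 13 / 17 * (22 / 3 * s - 5) ≤ b * (22 / 3 * s - 5) := BE1_low hb1 (by linarith)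
  -- upper end facts
  have f1 : b * (5 - 6 * s) ≤ w := by
    have h1 : b * (2 * s - 1) * (5 - 6 * s) ≤ (1 - w) * (5 - 6 * s) :=
      mul_le_mul_of_nonneg_right hb3 (by linarith)
    have h2 : (1 - w) * (5 - 6 * s) ≤ w * (2 * s - 1) := by
      rw [hw]
      nlinarith [sq_nonneg (156 * (1 - s) - 51)]
    have h3 : b * (5 - 6 * s) * (2 * s - 1) ≤ w * (2 * s - 1) := by linarith
    exact le_of_mul_le_mul_right h3 h2s
  have f2 : w ≤ 2 / 3 → b * (5 - 6 * s) ≤ 3 / 2 * w - 1 / 3 := by
    intro hw2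
    have hs3 : 83 / 117 ≤ s := by
      rw [hw] at hw2
      linarith
    have h1 : b * (2 * s - 1) * (5 - 6 * s) ≤ (1 - w) * (5 - 6 * s) :=
      mul_le_mul_of_nonneg_right hb3 (by linarith)
    have h2 : (1 - w) * (5 - 6 * s) ≤ (3 / 2 * w - 1 / 3) * (2 * s - 1) := by
      rw [hw]
      nlinarith [mul_nonneg (sub_nonneg.mpr hs3) (sub_nonneg.mpr hs2)]
    have h3 : b * (5 - 6 * s) * (2 * s - 1) ≤ (3 / 2 * w - 1 / 3) * (2 * s - 1) := by linarith
    exact le_of_mul_le_mul_right h3 h2s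
  have f3 : b * ((11 - 15 * s) / 2) ≤ 7 / 4 * w - 1 := by
    rcases le_total (11 - 15 * s) 0 with h | h
    · have h1 : 13 / 17 * (-((11 - 15 * s) / 2)) ≤ b * (-((11 - 15 * s) / 2)) :=
        BE1_low hb1 (by linarith)
      rw [hw]
      linarith
    · have h1 : b * (2 * s - 1) * ((11 - 15 * s) / 2) ≤ (1 - w) * ((11 - 15 * s) / 2) :=
        mul_le_mul_of_nonneg_right hb3 (by linarith)
      have h2 : (1 - w) * ((11 - 15 * s) / 2) ≤ (7 / 4 * w - 1) * (2 * s - 1) := by
        rw [hw]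
        nlinarith [mul_nonneg (sub_nonneg.mpr hs1) (by linarith : (0 : ℝ) ≤ s - 31 / 48)]
      have h3 : b * ((11 - 15 * s) / 2) * (2 * s - 1) ≤ (7 / 4 * w - 1) * (2 * s - 1) := by
        linarith
      exact le_of_mul_le_mul_right h3 h2s
  have hbs : 0 ≤ b * (1 - s) := mul_nonneg (by linarith) (by linarith)
  have g1 : 2 * b * (1 - s) ≤ w := by
    rw [hw]
    nlinarith [mul_nonneg (by linarith : (0 : ℝ) ≤ 1 - s) (by linarith : (0 : ℝ) ≤ 1 - b)]
  refine ⟨max 0 (2 + 3 * b - 3 / 2 * w - 6 * (b * s)), ?_⟩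
  unfold EXI sg
  -- two cases for `sg`, two cases for `l`
  rcases le_total (2 + 3 * b - 3 / 2 * w - 6 * (b * s)) 0 with hl | hl <;>
  rcases le_total (3 / 2 * w + 1 / 3) (2 * w) with hg | hg
  · rw [max_eq_left hl, max_eq_left hg]
    refine ⟨le_rfl, by linarith, by linarith, by linarith, by linarith, by linarith, by linarith,
      by linarith, by linarith⟩
  · have hw2 : w ≤ 2 / 3 := by linarith
    have f2' := f2 hw2
    rw [max_eq_left hl, max_eq_right hg]
    refine ⟨le_rfl, by linarith, by linarith, by linarith, by linarith, by linarith, by linarith,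
      by linarith, by linarith⟩
  · rw [max_eq_right hl, max_eq_left hg]
    refine ⟨hl, by linarith, by linarith, by linarith, by linarith, by linarith, by linarith,
      by linarith, by linarith⟩
  · have hw2 : w ≤ 2 / 3 := by linarith
    have f2' := f2 hw2
    rw [max_eq_right hl, max_eq_right hg]
    refine ⟨hl, by linarith, by linarith, by linarith, by linarith, by linarith, by linarith,
      by linarith, by linarith⟩

end Pool.Agent.ZD
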